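import Mathlib
import Pool.Agent.Helper35.Star

set_option autoImplicit false

namespace Pool.Agent.Results.MP_6428c8_nt.BothStrict

open Polynomial Filter

/-- The naive height of an integer polynomial: the maximum absolute value of its coefficients. -/
noncomputable def height (P : ℤ[X]) : ℕ := P.support.sup (fun i => (P.coeff i).natAbs)

/-- `P` is the minimal polynomial over `ℤ` of the real number `α`: irreducible, primitive,
with positive leading coefficient, vanishing at `α`. -/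
def IsMinPolyZ (P : ℤ[X]) (α : ℝ) : Prop :=
  Irreducible P ∧ P.IsPrimitive ∧ 0 < P.leadingCoeff ∧ aeval α P = 0

/-- Mahler's exponent `w_n(ξ)`, in the extended reals. -/
noncomputable def wMahler (ξ : ℝ) (n : ℕ) : EReal :=
  sSup {W : EReal | ∃ w : ℝ, W = (w : EReal) ∧
    {P : ℤ[X] | P.natDegree ≤ n ∧ 0 < |aeval ξ P| ∧
      |aeval ξ P| ≤ (height P : ℝ) ^ (-w)}.Infinite}

/-- Koksma's exponent `w_n^*(ξ)`, in the extended reals. -/
noncomputable def wKoksma (ξ : ℝ) (n : ℕ) : EReal :=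
  sSup {W : EReal | ∃ w : ℝ, W = (w : EReal) ∧
    {α : ℝ | ∃ P : ℤ[X], IsMinPolyZ P α ∧ P.natDegree ≤ n ∧ 0 < |ξ - α| ∧
      |ξ - α| ≤ (height P : ℝ) ^ (-w - 1)}.Infinite}

/-- A real S-number: transcendental with `limsup w_n(ξ) / n < ∞`. -/
def IsSNumber (ξ : ℝ) : Prop :=
  Transcendental ℚ ξ ∧ limsup (fun n : ℕ => wMahler ξ n / (n : EReal)) atTop < ⊤

theorem sSup_eq (S : Set ℝ) (a : ℝ) (h : IsLUB S a) :
    sSup {W : EReal | ∃ w : ℝ, W = (w : EReal) ∧ w ∈ S} = (a : EReal) := by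
  apply IsLUB.sSup_eq
  constructor
  · rintro W ⟨w, rfl, hw⟩
    exact_mod_cast h.1 hw
  · intro b hb
    induction b with
    | bot =>
      exfalso
      by_cases hne : S.Nonempty
      · obtain ⟨w, hw⟩ := hne
        have := hb ⟨w, rfl, hw⟩
        simp at this
      · rw [Set.not_nonempty_iff_eq_empty] at hne
        subst hne
        have h2 : a ≤ a - 1 := h.2 (by simp)
        linarith
    | coe b =>
      have : a ≤ b := h.2 (fun w hw => by
        have := hb ⟨w, rfl, hw⟩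
        exact_mod_cast this)
      exact_mod_cast this
    | top => exact le_top

theorem ratio_coe (a : ℝ) (n : ℕ) :
    ((a : EReal) + 1) / ((n : EReal) + 1) = (((a + 1) / ((n : ℝ) + 1) : ℝ) : EReal) := by
  rw [EReal.coe_div]
  push_cast
  rfl

theorem strict_of (W : ℕ → EReal) (f : ℕ → ℝ) (hW : ∀ n, 1 ≤ n → W n = (f n : EReal))
    (h1 : 89 ≤ f 1) (hle : ∀ m : ℕ, 1 ≤ m → f m ≤ ((max (40 * (m + 1)) 400 : ℕ) : ℝ)) :
    limsup (fun n : ℕ => (W n + 1) / ((n : EReal) + 1)) atTop <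
      ⨆ (n : ℕ) (_ : 1 ≤ n), (W n + 1) / ((n : EReal) + 1) := by
  have hA : limsup (fun n : ℕ => (W n + 1) / ((n : EReal) + 1)) atTop ≤ ((41 : ℝ) : EReal) := by
    apply limsup_le_of_le
    · isBoundedDefault
    · filter_upwards [eventually_ge_atTop 9] with m hm
      rw [hW m (by omega), ratio_coe]
      have h1 := hle m (by omega)
      have hmr : (9 : ℝ) ≤ m := by exact_mod_cast hm
      have h2 : max (40 * (m + 1)) 400 = 40 * (m + 1) := max_eq_left (by omega)
      rw [h2] at h1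
      push_cast at h1
      have h3 : (f m + 1) / ((m : ℝ) + 1) ≤ 41 := by
        rw [div_le_iff₀ (by linarith)]
        linarith
      exact_mod_cast h3
  have hB : ((45 : ℝ) : EReal) ≤ ⨆ (n : ℕ) (_ : 1 ≤ n), (W n + 1) / ((n : EReal) + 1) := by
    refine le_trans ?_ (le_iSup₂_of_le 1 le_rfl le_rfl)
    rw [hW 1 le_rfl, ratio_coe]
    have h3 : (45 : ℝ) ≤ (f 1 + 1) / (((1 : ℕ) : ℝ) + 1) := by
      push_cast
      rw [le_div_iff₀ (by norm_num)]
      linarith
    exact_mod_cast h3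
  have hC : ((41 : ℝ) : EReal) < ((45 : ℝ) : EReal) := by
    rw [EReal.coe_lt_coe_iff]; norm_num
  exact lt_of_le_of_lt hA (lt_of_lt_of_le hC hB)

/-- There is a real S-number for which both strict inequalities (1) and (2) hold. -/
theorem result : ∃ ξ : ℝ, IsSNumber ξ ∧
    limsup (fun n : ℕ => (wMahler ξ n + 1) / ((n : EReal) + 1)) atTop <
      ⨆ (n : ℕ) (_ : 1 ≤ n), (wMahler ξ n + 1) / ((n : EReal) + 1) ∧
    limsup (fun n : ℕ => (wKoksma ξ n + 1) / ((n : EReal) + 1)) atTop <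
      ⨆ (n : ℕ) (_ : 1 ≤ n), (wKoksma ξ n + 1) / ((n : EReal) + 1) := by
  obtain ⟨ξ, N, n, f, hmono, hN1, hx0, hx1, hξ0, hξ1, hpos, hhi, hbd, hlub, hge, hle, h89⟩ :=
    Pool.Agent.Helper35.main_f
  have hne : ∀ P : ℤ[X], P ≠ 0 → aeval ξ P ≠ 0 := by
    intro P hP h0
    obtain ⟨c, hc, hcc⟩ := hbd P.natDegree
    have := hcc P hP le_rfl
    rw [h0, abs_zero, zero_mul] at this
    linarith
  have hM : ∀ m, 1 ≤ m → wMahler ξ m = (f m : EReal) := by
    intro m hm
    rw [← sSup_eq _ _ (hlub m hm)]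
    unfold wMahler
    congr 1
    ext W
    simp only [Set.mem_ofPred_eq]
    refine exists_congr (fun w => and_congr_right (fun _ => ?_))
    unfold Pool.Agent.Helper35.WSet
    simp only [Set.mem_ofPred_eq]
    have : {P : ℤ[X] | P.natDegree ≤ m ∧ 0 < |aeval ξ P| ∧
        |aeval ξ P| ≤ (height P : ℝ) ^ (-w)} = {P : ℤ[X] | P ≠ 0 ∧ P.natDegree ≤ m ∧
        0 < |aeval ξ P| ∧ |aeval ξ P| ≤ (Pool.Agent.Helper35.ht P : ℝ) ^ (-w)} := by
      ext P
      simp only [Set.mem_ofPred_eq]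
      constructor
      · rintro ⟨h1, h2, h3⟩
        refine ⟨?_, h1, h2, h3⟩
        rintro rfl
        simp at h2
      · rintro ⟨_, h1, h2, h3⟩
        exact ⟨h1, h2, h3⟩
    rw [this]
  have hlubK : ∀ m : ℕ, 1 ≤ m → IsLUB (Pool.Agent.Helper35.SSet ξ m)
      (sSup (Pool.Agent.Helper35.SSet ξ m)) := by
    intro m hm
    obtain ⟨c, hc, hcc⟩ := hbd m
    apply isLUB_csSup
    · exact ⟨89, Pool.Agent.Helper35.SSet_one ξ N n hmono hN1 hx0 hx1 hpos hhi m hm⟩
    · exact ⟨_, fun w hw => Pool.Agent.Helper35.SSet_le ξ hξ0 hξ1 m _ c hc hcc w hw⟩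
  have hK : ∀ m, 1 ≤ m → wKoksma ξ m = ((sSup (Pool.Agent.Helper35.SSet ξ m) : ℝ) : EReal) := by
    intro m hm
    rw [← sSup_eq _ _ (hlubK m hm)]
    rfl
  refine ⟨ξ, ⟨?_, ?_⟩, ?_, ?_⟩
  · intro hc
    rw [← IsFractionRing.isAlgebraic_iff ℤ ℚ ℝ] at hc
    obtain ⟨P, hP, h0⟩ := hc
    exact hne P hP h0
  · refine lt_of_le_of_lt (b := ((480 : ℝ) : EReal)) ?_ (EReal.coe_lt_top _)
    apply limsup_le_of_le
    · isBoundedDefault
    · filter_upwards [eventually_ge_atTop 1] with m hm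
      rw [hM m hm]
      have e : (f m : EReal) / (m : EReal) = ((f m / (m : ℝ) : ℝ) : EReal) := by
        rw [EReal.coe_div]; rfl
      rw [e]
      have h1 := hle m hm
      have hmr : (1 : ℝ) ≤ m := by exact_mod_cast hm
      have h3 : f m / (m : ℝ) ≤ 480 := by
        rw [div_le_iff₀ (by linarith)]
        refine h1.trans ?_
        push_cast
        apply max_le
        · linarith
        · linarith
      exact_mod_cast h3
  · exact strict_of _ f hM h89 hle
  · apply strict_of _ _ hK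
    · exact (hlubK 1 le_rfl).1
        (Pool.Agent.Helper35.SSet_one ξ N n hmono hN1 hx0 hx1 hpos hhi 1 le_rfl)
    · intro m hm
      obtain ⟨c, hc, hcc⟩ := hbd m
      exact (hlubK m hm).2
        (fun w hw => Pool.Agent.Helper35.SSet_le ξ hξ0 hξ1 m _ c hc hcc w hw)

end Pool.Agent.Results.MP_6428c8_nt.BothStrict
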